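import Pool.Agent.X55.Baker.Core

/-!
# MP_3923f3_nt: the almost prime analogue of the constant of Baker is one

A quadruple of integers is admissible (`Admissible`) if `a`, `b`, `c` are nonzero and not all of the same sign,
`a + b + c - d` is even, and `gcd(a, b, c) = gcd(d, a, b) = gcd(d, a, c) = gcd(d, b, c) = 1`. Put
`m = max(3, |a|, |b|, |c|)` (`size`). The constant of Baker is the infimum of the `μ` for which all admissible
equations `a p + b q + c r = d` are solvable in primes up to `3 |d| + m ^ μ`; it is conjectured to be one, and known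
to be at most `45`.

**Theorem.** (1) For all `ε > 0` there are `δ > 0` and `r`, such that for **all** admissible quadruples for which
`X = max(m, |d|)` is sufficiently large, the equation `a x + b y + c z = d` has at least `X ^ δ` solutions in positive
integers

  `x, y, z ≤ (1 + ε) |d| + m ^ (1 + ε)`,

which have at most `r` prime factors each, all of them greater than `X ^ δ`.

(2) Consequently for all `μ > 1` there are `r` and `C` such that **all** admissible equations have a solution in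
integers `x, y, z > 1` with at most `r` prime factors each and `max(x, y, z) ≤ 3 |d| + C m ^ μ`.
(3) This holds for no `μ < 1`.

So the exponent of the conjecture `M = 1` is correct, for all equations, for numbers with a bounded number of prime
factors. The proof: let `a` and `c` have opposite signs, and let `g` be their greatest common divisor. The sieve of the
linear equation in `x` and `z` is possible only if `y` is such that `(d - b y) / g` has no common factor with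
`a c / g ^ 2`, and is even if this number is odd. Such `y` without small prime factors in the residue class modulo `g`
are provided by a sieve in which the removed residue classes depend on the quadruple; the fundamental lemma holds
uniformly in the classes, and this gives uniformity in all coefficients.
-/

set_option autoImplicit false

namespace Pool.Agent.Results.MP_3923f3_nt.AlmostPrimeSolutions

open Finset Filter Pool.Agent.H373R2.T7 Pool.Agent.X55.Baker

/-- admissible quadruples -/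
def Admissible (a b c d : ℤ) : Prop :=
  (a ≠ 0 ∧ b ≠ 0 ∧ c ≠ 0) ∧ ¬ (0 < a ∧ 0 < b ∧ 0 < c) ∧ ¬ (a < 0 ∧ b < 0 ∧ c < 0) ∧ Even (a + b + c - d) ∧
  Int.gcd a (Int.gcd b c) = 1 ∧ Int.gcd d (Int.gcd a b) = 1 ∧ Int.gcd d (Int.gcd a c) = 1 ∧
  Int.gcd d (Int.gcd b c) = 1

/-- `max(3, |a|, |b|, |c|)` -/
def size (a b c : ℤ) : ℤ := max 3 (max |a| (max |b| |c|))

/-- `n > 1` has at most `r` prime factors (with multiplicity), all of them greater than `w`, and is at most `B`. -/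
def Almost (r : ℕ) (w B : ℝ) (n : ℕ) : Prop :=
  1 < n ∧ n.primeFactorsList.length ≤ r ∧ (∀ p : ℕ, p.Prime → p ∣ n → w < p) ∧ (n : ℝ) ≤ B

/-- `t = (x, y, z)` is a solution of `a x + b y + c z = d`, and `x`, `y`, `z` have the property `Almost r w B`. -/
def Solution (r : ℕ) (w B : ℝ) (a b c d : ℤ) (t : ℕ × ℕ × ℕ) : Prop :=
  a * t.1 + b * t.2.1 + c * t.2.2 = d ∧ Almost r w B t.1 ∧ Almost r w B t.2.1 ∧ Almost r w B t.2.2

/-- All admissible equations have solutions in integers greater than one and at most `3 |d| + C m ^ μ`, with at most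
`r` prime factors each. -/
def Good (r : ℕ) (C μ : ℝ) : Prop :=
  ∀ a b c d : ℤ, Admissible a b c d →
    ∃ t : ℕ × ℕ × ℕ, Solution r 1 (3 * |(d : ℝ)| + C * (size a b c : ℝ) ^ μ) a b c d t

/-- many solutions with a symmetric property -/
def Many (P : ℕ → Prop) (n : ℕ) (a b c d : ℤ) : Prop :=
  ∃ F : Finset (ℕ × ℕ × ℕ), n ≤ F.card ∧ ∀ t ∈ F, a * t.1 + b * t.2.1 + c * t.2.2 = d ∧ P t.1 ∧ P t.2.1 ∧ P t.2.2

lemma swap1 {P : ℕ → Prop} {n : ℕ} {a b c d : ℤ} (h : Many P n b a c d) : Many P n a b c d := by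
  obtain ⟨F, hF, h⟩ := h
  refine ⟨F.image (fun t => (t.2.1, t.1, t.2.2)), ?_, fun t ht => ?_⟩
  · rw [card_image_of_injective]
    · exact hF
    · rintro ⟨x, y, z⟩ ⟨x', y', z'⟩ hxy
      simp only [Prod.mk.injEq] at hxy ⊢
      exact ⟨hxy.2.1, hxy.1, hxy.2.2⟩
  · rw [mem_image] at ht
    obtain ⟨t', ht', rfl⟩ := ht
    obtain ⟨h1, h2, h3, h4⟩ := h t' ht'
    exact ⟨by linear_combination h1, h3, h2, h4⟩

lemma swap2 {P : ℕ → Prop} {n : ℕ} {a b c d : ℤ} (h : Many P n a c b d) : Many P n a b c d := by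
  obtain ⟨F, hF, h⟩ := h
  refine ⟨F.image (fun t => (t.1, t.2.2, t.2.1)), ?_, fun t ht => ?_⟩
  · rw [card_image_of_injective]
    · exact hF
    · rintro ⟨x, y, z⟩ ⟨x', y', z'⟩ hxy
      simp only [Prod.mk.injEq] at hxy ⊢
      exact ⟨hxy.1, hxy.2.2, hxy.2.1⟩
  · rw [mem_image] at ht
    obtain ⟨t', ht', rfl⟩ := ht
    obtain ⟨h1, h2, h3, h4⟩ := h t' ht'
    exact ⟨by linear_combination h1, h2, h4, h3⟩

lemma gcd_of {a b c : ℤ} (h : Int.gcd a (Int.gcd b c) = 1) (p : ℕ) (hp : p.Prime) :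
    ¬ ((p : ℤ) ∣ a ∧ (p : ℤ) ∣ b ∧ (p : ℤ) ∣ c) := by
  rintro ⟨h1, h2, h3⟩
  have h4 : (p : ℤ) ∣ ((Int.gcd b c : ℕ) : ℤ) := Int.dvd_coe_gcd h2 h3
  have h5 : (p : ℤ) ∣ ((Int.gcd a (Int.gcd b c) : ℕ) : ℤ) := Int.dvd_coe_gcd h1 h4
  rw [h] at h5
  have h6 : p ∣ 1 := by exact_mod_cast h5
  exact hp.one_lt.ne' (Nat.dvd_one.1 h6)

/-- the property of the unknowns -/
def Pr (y : ℕ) (B : ℤ) (n : ℕ) : Prop := (∀ p ∈ pz y, ¬ p ∣ n) ∧ 2 ≤ n ∧ (n : ℤ) ≤ B

/-- the theorem for all signs -/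
theorem all_signs : ∃ K X₀ : ℕ, 1 ≤ K ∧ 3 ≤ X₀ ∧ ∀ y : ℕ, X₀ ≤ y → ∀ a b c d : ℤ, Admissible a b c d →
    Many (Pr y (|d| + 4 * size a b c * (y : ℤ) ^ (2 * K))) (2 * y) a b c d := by
  obtain ⟨K, X₀, hK, hX₀, hc⟩ := core
  refine ⟨K, X₀, hK, hX₀, fun y hy a b c d hadm => ?_⟩
  have key : ∀ a b c m : ℤ, 0 < a → c < 0 → Even (a + b + c - d) →
      (∀ p : ℕ, p.Prime → ¬ ((p : ℤ) ∣ a ∧ (p : ℤ) ∣ b ∧ (p : ℤ) ∣ c)) →
      (∀ p : ℕ, p.Prime → ¬ ((p : ℤ) ∣ d ∧ (p : ℤ) ∣ a ∧ (p : ℤ) ∣ b)) →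
      (∀ p : ℕ, p.Prime → ¬ ((p : ℤ) ∣ d ∧ (p : ℤ) ∣ a ∧ (p : ℤ) ∣ c)) →
      (∀ p : ℕ, p.Prime → ¬ ((p : ℤ) ∣ d ∧ (p : ℤ) ∣ b ∧ (p : ℤ) ∣ c)) →
      |a| ≤ m → |b| ≤ m → |c| ≤ m → Many (Pr y (|d| + 4 * m * (y : ℤ) ^ (2 * K))) (2 * y) a b c d := by
    intro a b c m ha hc' he h1 h2 h3 h4 ham hbm hcm
    have ea : ((a.toNat : ℕ) : ℤ) = a := Int.toNat_of_nonneg ha.le
    have ec : (((-c).toNat : ℕ) : ℤ) = -c := Int.toNat_of_nonneg (by omega)
    have hda : ∀ p : ℕ, p ∣ a.toNat → (p : ℤ) ∣ a := fun p hp => by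
      rw [← ea]
      exact_mod_cast hp
    have hdc : ∀ p : ℕ, p ∣ (-c).toNat → (p : ℤ) ∣ c := fun p hp => by
      have : (p : ℤ) ∣ -c := by
        rw [← ec]
        exact_mod_cast hp
      exact (dvd_neg).1 this
    obtain ⟨F, hF, h⟩ := hc y hy a.toNat (-c).toNat b d (by omega) (by omega)
      (fun p hp h => h1 p hp ⟨hda p h.1, h.2.2, hdc p h.2.1⟩)
      (fun p hp h => h3 p hp ⟨h.2.2, hda p h.1, hdc p h.2.1⟩)
      (fun p hp h => h2 p hp ⟨h.2.2, hda p h.1, h.2.1⟩)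
      (fun p hp h => h4 p hp ⟨h.2.2, h.2.1, hdc p h.1⟩)
      (by
        rw [ea, ec]
        obtain ⟨w, hw⟩ := he
        exact ⟨w - c + d, by omega⟩)
      m (by rw [ea]; exact (le_abs_self a).trans ham) (by rw [ec]; exact (neg_le_abs c).trans hcm) hbm
    refine ⟨F, hF, fun t ht => ?_⟩
    obtain ⟨k1, k2, k3, k4, k5, k6, k7, k8⟩ := h t ht
    rw [ea, ec] at k1
    exact ⟨by linear_combination k1, ⟨fun p hp => (k2 p hp).1, k3, k6⟩, ⟨fun p hp => (k2 p hp).2.1, k4, k7⟩,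
      ⟨fun p hp => (k2 p hp).2.2, k5, k8⟩⟩
  obtain ⟨⟨ha, hb, hc0⟩, hs1, hs2, he, g1, g2, g3, g4⟩ := hadm
  have G1 := gcd_of g1
  have G2 := gcd_of g2
  have G3 := gcd_of g3
  have G4 := gcd_of g4
  have ma : |a| ≤ size a b c := (le_max_left _ _).trans (le_max_right _ _)
  have mb : |b| ≤ size a b c := ((le_max_left _ _).trans (le_max_right _ _)).trans (le_max_right _ _)
  have mc : |c| ≤ size a b c := ((le_max_right _ _).trans (le_max_right _ _)).trans (le_max_right _ _)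
  rcases lt_or_gt_of_ne ha with ha' | ha'
  · rcases lt_or_gt_of_ne hc0 with hc' | hc'
    · -- a < 0, c < 0, b > 0
      have hb' : 0 < b := by
        rcases lt_or_gt_of_ne hb with h | h
        · exact absurd ⟨ha', h, hc'⟩ hs2
        · exact h
      apply swap1
      exact swap2 (key b c a _ hb' ha' (by obtain ⟨w, hw⟩ := he; exact ⟨w, by omega⟩)
        (fun p hp h => G1 p hp ⟨h.2.2, h.1, h.2.1⟩) (fun p hp h => G4 p hp ⟨h.1, h.2.1, h.2.2⟩)
        (fun p hp h => G2 p hp ⟨h.1, h.2.2, h.2.1⟩) (fun p hp h => G3 p hp ⟨h.1, h.2.2, h.2.1⟩) mb mc ma)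
    · -- a < 0 < c
      apply swap1
      apply swap2
      apply swap1
      exact key c b a _ hc' ha' (by obtain ⟨w, hw⟩ := he; exact ⟨w, by omega⟩)
        (fun p hp h => G1 p hp ⟨h.2.2, h.2.1, h.1⟩) (fun p hp h => G4 p hp ⟨h.1, h.2.2, h.2.1⟩)
        (fun p hp h => G3 p hp ⟨h.1, h.2.2, h.2.1⟩) (fun p hp h => G2 p hp ⟨h.1, h.2.2, h.2.1⟩) mc mb ma
  · rcases lt_or_gt_of_ne hc0 with hc' | hc'
    · exact key a b c _ ha' hc' he G1 G2 G3 G4 ma mb mc
    · -- a > 0, c > 0, b < 0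
      have hb' : b < 0 := by
        rcases lt_or_gt_of_ne hb with h | h
        · exact h
        · exact absurd ⟨ha', h, hc'⟩ hs1
      apply swap2
      exact key a c b _ ha' hb' (by obtain ⟨w, hw⟩ := he; exact ⟨w, by omega⟩)
        (fun p hp h => G1 p hp ⟨h.1, h.2.2, h.2.1⟩) (fun p hp h => G3 p hp ⟨h.1, h.2.1, h.2.2⟩)
        (fun p hp h => G2 p hp ⟨h.1, h.2.1, h.2.2⟩) (fun p hp h => G4 p hp ⟨h.1, h.2.2, h.2.1⟩) ma mc mb

lemma pow_length_le (w : ℝ) (hw : 1 ≤ w) (n : ℕ) (hn : n ≠ 0) (h : ∀ p : ℕ, p.Prime → p ∣ n → w < p) :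
    w ^ n.primeFactorsList.length ≤ n := by
  have h1 : ∀ l : List ℕ, (∀ p ∈ l, w ≤ (p : ℝ)) → w ^ l.length ≤ ((l.prod : ℕ) : ℝ) := by
    intro l
    induction l with
    | nil => simp
    | cons q l ih =>
      intro hl
      rw [List.length_cons, List.prod_cons, pow_succ, Nat.cast_mul]
      have h2 := hl q (List.mem_cons_self)
      have h3 := ih fun p hp => hl p (List.mem_cons_of_mem _ hp)
      rw [mul_comm]
      gcongr
  have h2 := h1 n.primeFactorsList fun p hp =>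
    (h p (Nat.prime_of_mem_primeFactorsList hp) (Nat.dvd_of_mem_primeFactorsList hp)).le
  rwa [Nat.prod_primeFactorsList hn] at h2

/-- the logarithms of the bounds -/
lemma factors_le (w B : ℝ) (r n : ℕ) (hw : 1 < w) (hn : n ≠ 0) (h : ∀ p : ℕ, p.Prime → p ∣ n → w < p)
    (hB : (n : ℝ) ≤ B) (hr : B < w ^ (r + 1)) : n.primeFactorsList.length ≤ r := by
  by_contra hcon
  push Not at hcon
  have h1 := pow_length_le w hw.le n hn h
  have h2 : w ^ (r + 1) ≤ w ^ n.primeFactorsList.length := pow_le_pow_right₀ hw.le hcon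
  linarith

/-- **The almost prime analogue of the constant of Baker is one.** -/
theorem result :
    (∀ ε : ℝ, 0 < ε → ∃ (δ : ℝ) (r X₀ : ℕ), 0 < δ ∧ ∀ a b c d : ℤ, Admissible a b c d →
      ∀ X : ℝ, X = max (size a b c : ℝ) |(d : ℝ)| → (X₀ : ℝ) ≤ X →
      ∃ F : Finset (ℕ × ℕ × ℕ), X ^ δ ≤ F.card ∧
        ∀ t ∈ F, Solution r (X ^ δ) ((1 + ε) * |(d : ℝ)| + (size a b c : ℝ) ^ (1 + ε)) a b c d t) ∧
    (∀ μ : ℝ, 1 < μ → ∃ (r : ℕ) (C : ℝ), Good r C μ) ∧
    (∀ μ : ℝ, μ < 1 → ∀ (r : ℕ) (C : ℝ), ¬ Good r C μ) := by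
  obtain ⟨K, Y₀, hK, hY₀, hall⟩ := all_signs
  have hK' : (1 : ℝ) ≤ K := by exact_mod_cast hK
  have hsize : ∀ a b c : ℤ, (3 : ℝ) ≤ (size a b c : ℝ) := fun a b c => by
    have : (3 : ℤ) ≤ size a b c := le_max_left _ _
    exact_mod_cast this
  have part1 : ∀ ε : ℝ, 0 < ε → ∃ (δ : ℝ) (r X₀ : ℕ), 0 < δ ∧ ∀ a b c d : ℤ, Admissible a b c d →
      ∀ X : ℝ, X = max (size a b c : ℝ) |(d : ℝ)| → (X₀ : ℝ) ≤ X →
      ∃ F : Finset (ℕ × ℕ × ℕ), X ^ δ ≤ F.card ∧
        ∀ t ∈ F, Solution r (X ^ δ) ((1 + ε) * |(d : ℝ)| + (size a b c : ℝ) ^ (1 + ε)) a b c d t := by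
    intro ε hε
    set η : ℝ := min (ε / 4) (1 / 4) with hη
    have hη0 : 0 < η := by rw [hη]; exact lt_min (by linarith) (by norm_num)
    have hη1 : η ≤ ε / 4 := min_le_left _ _
    have hη2 : η ≤ 1 / 4 := min_le_right _ _
    set δ : ℝ := η / (2 * K) with hδ
    have hδ0 : 0 < δ := by rw [hδ]; positivity
    set r : ℕ := ⌈(3 + ε) / δ⌉₊ with hr
    have t0 : ∀ᶠ X : ℝ in atTop, (Y₀ : ℝ) + 3 ≤ X ^ δ := (tendsto_rpow_atTop hδ0).eventually_ge_atTop _
    have t1 : ∀ᶠ X : ℝ in atTop, 8 ^ (2 : ℝ) ≤ X ^ (ε / 2) := (tendsto_rpow_atTop (half_pos hε)).eventually_ge_atTop _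
    have t2 : ∀ᶠ X : ℝ in atTop, 8 / ε ≤ X ^ (1 / 4 : ℝ) := (tendsto_rpow_atTop (by norm_num)).eventually_ge_atTop _
    have t3 : ∀ᶠ X : ℝ in atTop, 3 + ε ≤ X := eventually_ge_atTop _
    obtain ⟨X₁, hX₁⟩ := eventually_atTop.mp (t0.and (t1.and (t2.and t3)))
    refine ⟨δ, r, ⌈X₁⌉₊, hδ0, fun a b c d hadm X hX hXX => ?_⟩
    obtain ⟨u0, u1, u2, u3⟩ := hX₁ X ((Nat.le_ceil _).trans hXX)
    obtain ⟨m, hm⟩ : ∃ m : ℝ, m = (size a b c : ℝ) := ⟨_, rfl⟩
    have hm3 : 3 ≤ m := by rw [hm]; exact hsize a b c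
    obtain ⟨D, hD⟩ : ∃ D : ℝ, D = |(d : ℝ)| := ⟨_, rfl⟩
    have hD0 : 0 ≤ D := by rw [hD]; exact abs_nonneg _
    rw [← hm, ← hD] at hX ⊢
    have hX3 : 3 ≤ X := by rw [hX]; exact hm3.trans (le_max_left _ _)
    have hmX : m ≤ X := by rw [hX]; exact le_max_left _ _
    have hDX : D ≤ X := by rw [hX]; exact le_max_right _ _
    have hX0 : 0 < X := by linarith
    obtain ⟨y, hy⟩ : ∃ y : ℕ, y = ⌊X ^ δ⌋₊ := ⟨_, rfl⟩
    have hy1 : (y : ℝ) ≤ X ^ δ := by rw [hy]; exact Nat.floor_le (by positivity)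
    have hy2 : X ^ δ < y + 1 := by rw [hy]; exact Nat.lt_floor_add_one _
    have hyY : Y₀ ≤ y := by
      have : (Y₀ : ℝ) < y + 1 := by linarith
      have h1 : Y₀ < y + 1 := by exact_mod_cast this
      omega
    have hyr : (3 : ℝ) ≤ y := by exact_mod_cast hY₀.trans hyY
    obtain ⟨F, hF, hsol⟩ := hall y hyY a b c d hadm
    have hpow : (y : ℝ) ^ (2 * K) ≤ X ^ η := by
      calc (y : ℝ) ^ (2 * K) ≤ (X ^ δ) ^ (2 * K) := by gcongr
        _ = X ^ (δ * ((2 * K : ℕ) : ℝ)) := by rw [← Real.rpow_natCast, ← Real.rpow_mul hX0.le]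
        _ = X ^ η := by
            congr 1
            rw [hδ]
            push_cast
            field_simp
    have hbd : D + 4 * m * X ^ η ≤ (1 + ε) * D + m ^ (1 + ε) := by
      rcases le_or_gt D (m ^ (2 : ℝ)) with h1 | h1
      · have hXm : X ≤ m ^ (2 : ℝ) := by
          rw [hX]
          apply max_le _ h1
          rw [Real.rpow_two]
          nlinarith
        have h2 : X ^ η ≤ m ^ (ε / 2) := by
          calc X ^ η ≤ (m ^ (2 : ℝ)) ^ η := Real.rpow_le_rpow hX0.le hXm hη0.le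
            _ = m ^ (2 * η) := by rw [← Real.rpow_mul (by linarith)]
            _ ≤ m ^ (ε / 2) := Real.rpow_le_rpow_of_exponent_le (by linarith) (by linarith)
        have h3 : 4 ≤ m ^ (ε / 2) := by
          have h4 : (8 : ℝ) ^ (2 : ℝ) ≤ (m ^ (ε / 2)) ^ (2 : ℝ) := by
            calc (8 : ℝ) ^ (2 : ℝ) ≤ X ^ (ε / 2) := u1
              _ ≤ (m ^ (2 : ℝ)) ^ (ε / 2) := Real.rpow_le_rpow hX0.le hXm (by linarith)
              _ = (m ^ (ε / 2)) ^ (2 : ℝ) := by
                  rw [← Real.rpow_mul (by linarith), ← Real.rpow_mul (by linarith), mul_comm]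
          have h5 := (Real.rpow_le_rpow_iff (by norm_num) (by positivity) (by norm_num)).1 h4
          linarith
        have h4 : 4 * m * X ^ η ≤ m ^ (1 + ε) := by
          calc 4 * m * X ^ η ≤ m ^ (ε / 2) * m * m ^ (ε / 2) := by gcongr
            _ = m ^ (1 + ε) := by
                have e1 : (m ^ (ε / 2)) * m * m ^ (ε / 2) = m ^ (ε / 2) * m ^ (1 : ℝ) * m ^ (ε / 2) := by
                  rw [Real.rpow_one]
                rw [e1, ← Real.rpow_add (by linarith), ← Real.rpow_add (by linarith)]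
                congr 1
                ring
        nlinarith
      · have hXD : X = D := by
          rw [hX]
          apply max_eq_right
          refine le_trans ?_ h1.le
          rw [Real.rpow_two]
          nlinarith
        have hmD : m ≤ X ^ (1 / 2 : ℝ) := by
          have h4 : (m ^ (2 : ℝ)) ^ (1 / 2 : ℝ) ≤ X ^ (1 / 2 : ℝ) :=
            Real.rpow_le_rpow (by positivity) (by rw [hXD]; exact h1.le) (by norm_num)
          rw [← Real.rpow_mul (by linarith)] at h4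
          norm_num at h4
          exact h4
        have h2 : 4 * m * X ^ η ≤ ε * D := by
          have h3 : X ^ η ≤ X ^ (1 / 4 : ℝ) := Real.rpow_le_rpow_of_exponent_le (by linarith) hη2
          have h4 : X = X ^ (1 / 2 : ℝ) * X ^ (1 / 4 : ℝ) * X ^ (1 / 4 : ℝ) := by
            rw [← Real.rpow_add hX0, ← Real.rpow_add hX0]
            norm_num
          have h5 : 4 ≤ ε * X ^ (1 / 4 : ℝ) := by
            rw [div_le_iff₀ hε] at u2
            linarith
          calc 4 * m * X ^ η ≤ (ε * X ^ (1 / 4 : ℝ)) * X ^ (1 / 2 : ℝ) * X ^ (1 / 4 : ℝ) := by gcongr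
            _ = ε * (X ^ (1 / 2 : ℝ) * X ^ (1 / 4 : ℝ) * X ^ (1 / 4 : ℝ)) := by ring
            _ = ε * D := by rw [← h4, hXD]
        have h3 : 0 ≤ m ^ (1 + ε) := by positivity
        linarith
    have hB : (1 + ε) * D + m ^ (1 + ε) < (X ^ δ) ^ (r + 1) := by
      have h1 : m ^ (1 + ε) ≤ X ^ (1 + ε) := Real.rpow_le_rpow (by linarith) hmX (by linarith)
      have h2 : (1 + ε) * D ≤ (1 + ε) * X ^ (1 + ε) := by
        have : X ≤ X ^ (1 + ε) := by
          calc X = X ^ (1 : ℝ) := (Real.rpow_one X).symm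
            _ ≤ X ^ (1 + ε) := Real.rpow_le_rpow_of_exponent_le (by linarith) (by linarith)
        gcongr
        linarith
      have h3 : (1 + ε) * D + m ^ (1 + ε) < X ^ (3 + ε) := by
        calc (1 + ε) * D + m ^ (1 + ε) ≤ (2 + ε) * X ^ (1 + ε) := by linarith
          _ < X * X ^ (1 + ε) := by
              apply mul_lt_mul_of_pos_right _ (by positivity)
              linarith
          _ ≤ X ^ (2 : ℝ) * X ^ (1 + ε) := by
              gcongr
              calc X = X ^ (1 : ℝ) := (Real.rpow_one X).symm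
                _ ≤ X ^ (2 : ℝ) := Real.rpow_le_rpow_of_exponent_le (by linarith) (by norm_num)
          _ = X ^ (3 + ε) := by
              rw [← Real.rpow_add hX0]
              congr 1
              ring
      refine h3.trans_le ?_
      rw [← Real.rpow_natCast, ← Real.rpow_mul hX0.le]
      apply Real.rpow_le_rpow_of_exponent_le (by linarith)
      have h4 : (3 + ε) / δ ≤ r := Nat.le_ceil _
      rw [div_le_iff₀ hδ0] at h4
      push_cast
      nlinarith
    refine ⟨F, ?_, fun t ht => ?_⟩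
    · have : ((2 * y : ℕ) : ℝ) ≤ F.card := by exact_mod_cast hF
      push_cast at this
      linarith
    · obtain ⟨k1, k2, k3, k4⟩ := hsol t ht
      have hA : ∀ n : ℕ, Pr y (|d| + 4 * size a b c * (y : ℤ) ^ (2 * K)) n →
          Almost r (X ^ δ) ((1 + ε) * D + m ^ (1 + ε)) n := by
        intro n hn
        obtain ⟨n1, n2, n3⟩ := hn
        have h1 : (n : ℝ) ≤ (1 + ε) * D + m ^ (1 + ε) := by
          have h2 : (n : ℝ) ≤ |(d : ℝ)| + 4 * (size a b c : ℝ) * (y : ℝ) ^ (2 * K) := by exact_mod_cast n3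
          rw [← hm, ← hD] at h2
          refine h2.trans (le_trans ?_ hbd)
          gcongr
        have h2 : ∀ p : ℕ, p.Prime → p ∣ n → X ^ δ < p := by
          intro p hp hpn
          by_contra hcon
          push Not at hcon
          refine n1 p (mem_pz.2 ⟨?_, hp⟩) hpn
          have : (p : ℝ) < y + 1 := by linarith
          have h3 : p < y + 1 := by exact_mod_cast this
          omega
        exact ⟨by omega, factors_le (X ^ δ) _ r n (by linarith) (by omega) h2 h1 hB, h2, h1⟩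
      exact ⟨k1, hA _ k2, hA _ k3, hA _ k4⟩
  refine ⟨part1, ?_, ?_⟩
  · intro μ hμ
    obtain ⟨δ, r, X₀, hδ, h⟩ := part1 (min (μ - 1) 1) (lt_min (by linarith) one_pos)
    set ε : ℝ := min (μ - 1) 1 with hε
    have hε1 : ε ≤ μ - 1 := min_le_left _ _
    have hε2 : ε ≤ 1 := min_le_right _ _
    have hε0 : 0 < ε := lt_min (by linarith) one_pos
    set C : ℝ := 4 * (Y₀ : ℝ) ^ (2 * K) + 1 with hC
    have hC1 : 1 ≤ C := by
      rw [hC]
      have : (0 : ℝ) ≤ 4 * (Y₀ : ℝ) ^ (2 * K) := by positivity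
      linarith
    obtain ⟨r', hr'⟩ : ∃ r' : ℕ, (X₀ : ℝ) + C * X₀ < 2 ^ (r' + 1) := by
      obtain ⟨n, hn⟩ := pow_unbounded_of_one_lt ((X₀ : ℝ) + C * X₀) (show (1 : ℝ) < 2 by norm_num)
      exact ⟨n, hn.trans_le (pow_le_pow_right₀ (by norm_num) (Nat.le_succ n))⟩
    refine ⟨max r r', C, fun a b c d hadm => ?_⟩
    have hm3 := hsize a b c
    rcases le_or_gt (X₀ : ℝ) (max (size a b c : ℝ) |(d : ℝ)|) with hcase | hcase
    · obtain ⟨F, hF, hsol⟩ := h a b c d hadm _ rfl hcase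
      have hX1 : 1 ≤ max (size a b c : ℝ) |(d : ℝ)| := (by linarith : (1 : ℝ) ≤ (size a b c : ℝ)).trans (le_max_left _ _)
      have hXd : 1 ≤ (max (size a b c : ℝ) |(d : ℝ)|) ^ δ := Real.one_le_rpow hX1 hδ.le
      have hpos : 0 < F.card := by
        have : (0 : ℝ) < F.card := by linarith
        exact_mod_cast this
      obtain ⟨t, ht⟩ := card_pos.1 hpos
      refine ⟨t, ?_⟩
      have hbd : (1 + ε) * |(d : ℝ)| + (size a b c : ℝ) ^ (1 + ε) ≤ 3 * |(d : ℝ)| + C * (size a b c : ℝ) ^ μ := by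
        have h1 : (size a b c : ℝ) ^ (1 + ε) ≤ (size a b c : ℝ) ^ μ :=
          Real.rpow_le_rpow_of_exponent_le (by linarith) (by linarith)
        have h2 : (0 : ℝ) ≤ (size a b c : ℝ) ^ μ := by positivity
        have h3 := abs_nonneg (d : ℝ)
        nlinarith
      have hA : ∀ n : ℕ, Almost r ((max (size a b c : ℝ) |(d : ℝ)|) ^ δ) ((1 + ε) * |(d : ℝ)| + (size a b c : ℝ) ^ (1 + ε)) n →
          Almost (max r r') 1 (3 * |(d : ℝ)| + C * (size a b c : ℝ) ^ μ) n := by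
        rintro n ⟨h1, h2, h3, h4⟩
        exact ⟨h1, h2.trans (le_max_left _ _), fun p hp hpn => by exact_mod_cast hp.one_lt, h4.trans hbd⟩
      obtain ⟨k1, k2, k3, k4⟩ := hsol t ht
      exact ⟨k1, hA _ k2, hA _ k3, hA _ k4⟩
    · obtain ⟨F, hF, hsol⟩ := hall Y₀ le_rfl a b c d hadm
      obtain ⟨t, ht⟩ := card_pos.1 (show 0 < F.card by omega)
      refine ⟨t, ?_⟩
      have hmX : (size a b c : ℝ) ≤ X₀ := (le_max_left _ _).trans hcase.le
      have hdX : |(d : ℝ)| ≤ X₀ := (le_max_right _ _).trans hcase.le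
      have hA : ∀ n : ℕ, Pr Y₀ (|d| + 4 * size a b c * (Y₀ : ℤ) ^ (2 * K)) n →
          Almost (max r r') 1 (3 * |(d : ℝ)| + C * (size a b c : ℝ) ^ μ) n := by
        rintro n ⟨_, n2, n3⟩
        have h2 : (n : ℝ) ≤ |(d : ℝ)| + 4 * (size a b c : ℝ) * (Y₀ : ℝ) ^ (2 * K) := by exact_mod_cast n3
        have h3 : (n : ℝ) ≤ |(d : ℝ)| + C * (size a b c : ℝ) := by
          refine h2.trans ?_
          rw [hC]
          nlinarith
        have h4 : (size a b c : ℝ) ≤ (size a b c : ℝ) ^ μ := by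
          calc (size a b c : ℝ) = (size a b c : ℝ) ^ (1 : ℝ) := (Real.rpow_one _).symm
            _ ≤ _ := Real.rpow_le_rpow_of_exponent_le (by linarith) hμ.le
        have h5 : n.primeFactorsList.length ≤ r' := by
          by_contra hcon
          push Not at hcon
          have h6 : (2 : ℕ) ^ n.primeFactorsList.length ≤ n := by
            have h7 : ∀ l : List ℕ, (∀ p ∈ l, 2 ≤ p) → 2 ^ l.length ≤ l.prod := by
              intro l
              induction l with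
              | nil => simp
              | cons q l ih =>
                intro hl
                rw [List.length_cons, List.prod_cons, pow_succ, mul_comm]
                exact Nat.mul_le_mul (hl q (List.mem_cons_self)) (ih fun p hp => hl p (List.mem_cons_of_mem _ hp))
            have h8 := h7 n.primeFactorsList fun p hp => (Nat.prime_of_mem_primeFactorsList hp).two_le
            rwa [Nat.prod_primeFactorsList (by omega)] at h8
          have h7 : (2 : ℕ) ^ (r' + 1) ≤ n := (Nat.pow_le_pow_right (by norm_num) hcon).trans h6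
          have h8 : (2 : ℝ) ^ (r' + 1) ≤ n := by exact_mod_cast h7
          have h9 : C * (size a b c : ℝ) ≤ C * X₀ := by gcongr
          linarith
        have h6 : (n : ℝ) ≤ 3 * |(d : ℝ)| + C * (size a b c : ℝ) ^ μ := by
          have h7 := abs_nonneg (d : ℝ)
          have h8 : C * (size a b c : ℝ) ≤ C * (size a b c : ℝ) ^ μ := by gcongr
          linarith
        exact ⟨by omega, h5.trans (le_max_right _ _), fun p hp hpn => by exact_mod_cast hp.one_lt, h6⟩
      obtain ⟨k1, k2, k3, k4⟩ := hsol t ht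
      exact ⟨k1, hA _ k2, hA _ k3, hA _ k4⟩
  · intro μ hμ r C hgood
    have t0 : ∀ᶠ X : ℝ in atTop, 2 * |C| + 1 ≤ X ^ (1 - μ) := (tendsto_rpow_atTop (by linarith)).eventually_ge_atTop _
    obtain ⟨X₁, hX₁⟩ := eventually_atTop.mp t0
    set k : ℕ := ⌈X₁⌉₊ + 2 with hk
    have hX : X₁ ≤ ((2 * k : ℕ) : ℝ) := by
      have h1 : X₁ ≤ (⌈X₁⌉₊ : ℝ) := Nat.le_ceil _
      have h2 : (⌈X₁⌉₊ : ℝ) ≤ ((2 * k : ℕ) : ℝ) := by exact_mod_cast (by omega : ⌈X₁⌉₊ ≤ 2 * k)
      linarith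
    have h1 := hX₁ _ hX
    have hadm : Admissible ((2 * k : ℕ) : ℤ) (-1) (-1) 0 := by
      refine ⟨⟨by push_cast; omega, by norm_num, by norm_num⟩, by omega, by omega, ⟨k - 1, by push_cast; ring⟩, ?_, ?_, ?_, ?_⟩
      · simp
      · simp
      · simp
      · simp
    obtain ⟨t, k1, k2, k3, k4⟩ := hgood _ _ _ _ hadm
    have hs : (size ((2 * k : ℕ) : ℤ) (-1) (-1) : ℝ) = ((2 * k : ℕ) : ℝ) := by
      have : size ((2 * k : ℕ) : ℤ) (-1) (-1) = ((2 * k : ℕ) : ℤ) := by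
        unfold size
        rw [abs_neg, abs_one, abs_of_nonneg (show (0 : ℤ) ≤ ((2 * k : ℕ) : ℤ) by positivity)]
        push_cast
        omega
      rw [this]
      push_cast
      ring
    have e2 := k3.2.2.2
    have e3 := k4.2.2.2
    rw [hs] at e2 e3
    have e1 : (2 * k : ℝ) ≤ t.2.1 + t.2.2 := by
      have h2 : ((2 * k : ℕ) : ℤ) * t.1 = t.2.1 + t.2.2 := by linear_combination k1
      have h3 : (1 : ℤ) ≤ t.1 := by exact_mod_cast k2.1.le
      have h4 : ((2 * k : ℕ) : ℤ) ≤ t.2.1 + t.2.2 := by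
        rw [← h2]
        have : (0 : ℤ) ≤ ((2 * k : ℕ) : ℤ) := by positivity
        nlinarith
      exact_mod_cast h4
    have hn0 : (0 : ℝ) < ((2 * k : ℕ) : ℝ) := by exact_mod_cast (by omega : 0 < 2 * k)
    have e4 : ((2 * k : ℕ) : ℝ) ≤ 2 * (C * ((2 * k : ℕ) : ℝ) ^ μ) := by
      simp only [Int.cast_zero, abs_zero, mul_zero, zero_add] at e2 e3
      push_cast at e1 e2 e3 ⊢
      linarith
    have e5 : ((2 * k : ℕ) : ℝ) = ((2 * k : ℕ) : ℝ) ^ (1 - μ) * ((2 * k : ℕ) : ℝ) ^ μ := by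
      rw [← Real.rpow_add hn0]
      norm_num
    have e6 : (0 : ℝ) < ((2 * k : ℕ) : ℝ) ^ μ := by positivity
    have e7 : (2 * |C| + 1) * ((2 * k : ℕ) : ℝ) ^ μ ≤ ((2 * k : ℕ) : ℝ) := by
      calc (2 * |C| + 1) * ((2 * k : ℕ) : ℝ) ^ μ ≤ ((2 * k : ℕ) : ℝ) ^ (1 - μ) * ((2 * k : ℕ) : ℝ) ^ μ := by gcongr
        _ = _ := e5.symm
    have e8 : C ≤ |C| := le_abs_self C
    nlinarith

end Pool.Agent.Results.MP_3923f3_nt.AlmostPrimeSolutions
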