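import Pool.Agent.X275.MD.MD8

/-!
# MP_3923f3_nt: the exponent `1 + ε` for almost all large coefficients with missing digits, for all equations at once

The large coefficient is `c = ± (c₀ + k)`, where `k` runs through the integers with `M` digits in base `b` whose digit at
`b ^ j` lies in a set `𝒟 j`; these sets are arbitrary with at least TWO elements, so that there may be as few as `2 ^ M`
coefficients, a set of the size of an arbitrarily small power of `b ^ M` (for instance: `c` with the decimal digits `0` and `1`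
only, or `c = 10 ^ M` plus these). For all but a proportion `M ^ (-A)` of these `c`, **all** admissible equations
`a p + b q + c r = d` with `|a|, |b| ≤ (log |c|) ^ T` and **all** `|d| ≤ |c| ^ K` have a solution in primes with

  `max(p, q, r) ≤ 3 |d| + |c| ^ (1 + ε)`,

the bound of the problem with the conjectured exponent `1 + ε` (`|c| ^ (1 + ε) ≤ m ^ (1 + ε)`), which is best possible here.

The starting results have the exponent `1 + ε` for almost all integers `c` (all but `X / (log X) ^ A` of those up to `X`), and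
`3 / 2 + ε` for all `c` without divisors in a sparse set; they say nothing for thin sets of coefficients with exponents
below `3 / 2`.

Method: almost all integers of a family of small additive energy have the right number of representations by ALL binary linear
forms in primes with small coefficients (`Pool.Agent.TH935.LF`, starting files). The energy of the family
`(k y + g(k) + h(y)) / t` is minimal for ARBITRARY functions `g`, `h` if `k` has missing digits (`Pool.Agent.X31`, in this run);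
we use it with `g(k) = ` the worst `d` for the coefficient `c₀ + k` and `h(y) = c₀ y`.
-/

set_option autoImplicit false

namespace Pool.Agent.Results.MP_3923f3_nt.MissingDigitCoefficients

open Finset
open Pool.Agent.Y883.T5 (Admissible)

/-- the integers `0 ≤ n < b ^ M` whose digit at `b ^ j` in base `b` is in `𝒟 j`, for all `j < M` -/
def Digits (b : ℕ) (𝒟 : ℕ → Finset ℕ) (M : ℕ) : Finset ℕ :=
  (range (b ^ M)).filter (fun n => ∀ j < M, n / b ^ j % b ∈ 𝒟 j)

/-- ALL admissible equations `a p₁ + b p₂ + c p₃ = d` with `|c| = q`, `|a|, |b| ≤ (log q) ^ T` and `|d| ≤ q ^ K` have a solution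
in primes with `max(p₁, p₂, p₃) ≤ 3 |d| + q ^ (1 + ε)`. -/
def Good (ε : ℝ) (T K q : ℕ) : Prop := ∀ a b c d : ℤ, Admissible a b c d → c.natAbs = q →
  |(a : ℝ)| ≤ Real.log q ^ T → |(b : ℝ)| ≤ Real.log q ^ T → |(d : ℝ)| ≤ (q : ℝ) ^ K →
  ∃ p₁ p₂ p₃ : ℕ, p₁.Prime ∧ p₂.Prime ∧ p₃.Prime ∧ a * p₁ + b * p₂ + c * p₃ = d ∧
    ((max p₁ (max p₂ p₃) : ℕ) : ℝ) ≤ 3 * |(d : ℝ)| + (q : ℝ) ^ (1 + ε)

open Classical in
/-- Let `b ≥ 2`, `ε > 0`, `A`, `T` and `K` be given. For all sufficiently large `M`, ALL sets `𝒟 j ⊆ {0, ..., b - 1}` of allowed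
digits with at least two elements and every integer `0 ≤ c₀ ≤ b ^ M M ^ A`: all but at most `#(Digits b 𝒟 M) / M ^ A` of the
`k ∈ Digits b 𝒟 M` are such that `Good ε T K (c₀ + k)`. -/
theorem result (b : ℕ) (hb : 2 ≤ b) (ε : ℝ) (hε : 0 < ε) (A T K : ℕ) : ∃ M₀ : ℕ, ∀ M : ℕ, M₀ ≤ M →
    ∀ (c₀ : ℕ) (𝒟 : ℕ → Finset ℕ), (∀ j, 𝒟 j ⊆ range b ∧ 2 ≤ (𝒟 j).card) → c₀ ≤ b ^ M * M ^ A →
      (((Digits b 𝒟 M).filter (fun k => ¬ Good ε T K (c₀ + k))).card : ℝ) ≤ (Digits b 𝒟 M).card / (M : ℝ) ^ A := by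
  obtain ⟨M₀, h0⟩ := Pool.Agent.X275.MD.coef hb ε hε A T K
  refine ⟨M₀, fun M hM c₀ 𝒟 hD hc₀ => le_trans ?_ (h0 M hM c₀ 𝒟 hD hc₀)⟩
  apply Nat.cast_le.2
  apply card_le_card
  intro k hk
  rw [mem_filter] at hk ⊢
  refine ⟨hk.1, fun hG => hk.2 ?_⟩
  intro a b' c d hadm hcq ha hb' hd
  have hcr : |(c : ℝ)| = ((c₀ + k : ℕ) : ℝ) := by
    rw [← hcq, Nat.cast_natAbs]
    push_cast
    rfl
  have hd' : |d| ≤ |c| ^ K := by
    have h1 : |(d : ℝ)| ≤ |(c : ℝ)| ^ K := by rw [hcr]; exact hd
    exact_mod_cast h1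
  obtain ⟨p₁, p₂, p₃, h1, h2, h3, h4, h5⟩ := hG a b' c d hadm hcq (by rw [hcr]; exact ha) (by rw [hcr]; exact hb') hd'
  exact ⟨p₁, p₂, p₃, h1, h2, h3, h4, by rw [hcr] at h5; exact h5⟩

end Pool.Agent.Results.MP_3923f3_nt.MissingDigitCoefficients
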