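import Pool.Agent.X55.Baker.Core2

/-!
# MP_3923f3_nt: one prime and two almost primes, uniformly in the coefficients

A quadruple of integers is admissible (`Admissible`) if `a`, `b`, `c` are nonzero and not all of the same sign,
`a + b + c - d` is even, and `gcd(a, b, c) = gcd(d, a, b) = gcd(d, a, c) = gcd(d, b, c) = 1`. Put
`m = max(3, |a|, |b|, |c|)` (`size`). The constant of Baker is the infimum of the `μ` for which all admissible
equations `a p + b q + c r = d` are solvable in primes up to `3 |d| + m ^ μ`; it is conjectured to be one, and known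
to be at most `45`.

**Theorem.** For all `ε > 0` there are `δ > 0` and `r`, such that for all `A` and **all** admissible quadruples for
which `X = max(m, |d|)` is sufficiently large (in terms of `ε` and `A`), and for which two of the coefficients, say
`a` and `c`, have opposite signs and `gcd(a, c) ≤ (log X) ^ A`, the equation `a x + b q + c z = d` has at least
`X ^ δ` solutions, in which

* `q` is **prime**,
* `x` and `z` have at most `r` prime factors,
* all prime factors of `x`, `q` and `z` are greater than `X ^ δ`, and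
* `x, q, z ≤ (1 + ε) |d| + m ^ (1 + ε)`.

This is Linnik's type of problem for the exponent `1 + ε` with two of the primes replaced by almost primes; the
condition on `gcd(a, c)`, which is satisfied for example if the coefficients are pairwise coprime or bounded, is the
condition of the theorem of Siegel and Walfisz: `q` is a prime in a residue class modulo `gcd(a, c)`.
The proof: the linear equation in `x` and `z` can be sieved only if `(d - b q) / gcd(a, c)` has no common factor with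
`a c / gcd(a, c) ^ 2`, that is, `q` has to avoid one residue class for each of up to `(log m) / log 2` primes, which
can be large or small and depend on the coefficients. Such primes `q` are found by the fundamental lemma for the primes
up to a power of `log X` (with the theorem of Siegel and Walfisz as level of distribution) and the trivial bound for
the larger ones.
-/

set_option autoImplicit false

namespace Pool.Agent.Results.MP_3923f3_nt.PrimeAndAlmostPrimes

open Finset Filter Pool.Agent.H373R2.T7 Pool.Agent.X55.Baker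

/-- admissible quadruples -/
def Admissible (a b c d : ℤ) : Prop :=
  (a ≠ 0 ∧ b ≠ 0 ∧ c ≠ 0) ∧ ¬ (0 < a ∧ 0 < b ∧ 0 < c) ∧ ¬ (a < 0 ∧ b < 0 ∧ c < 0) ∧ Even (a + b + c - d) ∧
  Int.gcd a (Int.gcd b c) = 1 ∧ Int.gcd d (Int.gcd a b) = 1 ∧ Int.gcd d (Int.gcd a c) = 1 ∧
  Int.gcd d (Int.gcd b c) = 1

/-- `max(3, |a|, |b|, |c|)` -/
def size (a b c : ℤ) : ℤ := max 3 (max |a| (max |b| |c|))

/-- `n > 1` has at most `r` prime factors (with multiplicity), all of them greater than `w`, and is at most `B`. -/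
def Almost (r : ℕ) (w B : ℝ) (n : ℕ) : Prop :=
  1 < n ∧ n.primeFactorsList.length ≤ r ∧ (∀ p : ℕ, p.Prime → p ∣ n → w < p) ∧ (n : ℝ) ≤ B

/-- `t = (x, q, z)` is a solution of `a x + b q + c z = d`, in which `x` and `z` have the property `Almost r w B`, and
`q` is a prime number between `w` and `B`. -/
def Solution (r : ℕ) (w B : ℝ) (a b c d : ℤ) (t : ℕ × ℕ × ℕ) : Prop :=
  a * t.1 + b * t.2.1 + c * t.2.2 = d ∧ Almost r w B t.1 ∧ (t.2.1.Prime ∧ w < t.2.1 ∧ (t.2.1 : ℝ) ≤ B) ∧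
  Almost r w B t.2.2

lemma gcd_of {a b c : ℤ} (h : Int.gcd a (Int.gcd b c) = 1) (p : ℕ) (hp : p.Prime) :
    ¬ ((p : ℤ) ∣ a ∧ (p : ℤ) ∣ b ∧ (p : ℤ) ∣ c) := by
  rintro ⟨h1, h2, h3⟩
  have h4 : (p : ℤ) ∣ ((Int.gcd b c : ℕ) : ℤ) := Int.dvd_coe_gcd h2 h3
  have h5 : (p : ℤ) ∣ ((Int.gcd a (Int.gcd b c) : ℕ) : ℤ) := Int.dvd_coe_gcd h1 h4
  rw [h] at h5
  have h6 : p ∣ 1 := by exact_mod_cast h5
  exact hp.one_lt.ne' (Nat.dvd_one.1 h6)

/-- the property of the unknowns -/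
def Pr (y : ℕ) (B : ℤ) (n : ℕ) : Prop := (∀ p ∈ pz y, ¬ p ∣ n) ∧ 2 ≤ n ∧ (n : ℤ) ≤ B

/-- many solutions -/
def Many (y : ℕ) (B : ℤ) (a b c d : ℤ) : Prop :=
  ∃ F : Finset (ℕ × ℕ × ℕ), 2 * y ≤ F.card ∧ ∀ t ∈ F, a * t.1 + b * t.2.1 + c * t.2.2 = d ∧ Pr y B t.1 ∧
    (t.2.1.Prime ∧ y < t.2.1 ∧ (t.2.1 : ℤ) ≤ B) ∧ Pr y B t.2.2

lemma swap3 {y : ℕ} {B a b c d : ℤ} (h : Many y B c b a d) : Many y B a b c d := by
  obtain ⟨F, hF, h⟩ := h
  refine ⟨F.image (fun t => (t.2.2, t.2.1, t.1)), ?_, fun t ht => ?_⟩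
  · rw [card_image_of_injective]
    · exact hF
    · rintro ⟨x, y, z⟩ ⟨x', y', z'⟩ hxy
      simp only [Prod.mk.injEq] at hxy ⊢
      exact ⟨hxy.2.2, hxy.2.1, hxy.1⟩
  · rw [mem_image] at ht
    obtain ⟨t', ht', rfl⟩ := ht
    obtain ⟨h1, h2, h3, h4⟩ := h t' ht'
    exact ⟨by linear_combination h1, h4, h3, h2⟩

/-- the number of the prime factors -/
lemma omega_le (n : ℕ) (hn : 0 < n) : (n.primeFactors.card : ℝ) ≤ 2 * Real.log n := by
  have h1 : 2 ^ n.primeFactors.card ≤ n := by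
    calc 2 ^ n.primeFactors.card = ∏ _p ∈ n.primeFactors, 2 := by rw [prod_const]
      _ ≤ ∏ p ∈ n.primeFactors, p := Finset.prod_le_prod' fun p hp => (Nat.mem_primeFactors.1 hp).1.two_le
      _ ≤ n := Nat.le_of_dvd hn (Nat.prod_primeFactors_dvd n)
  have h2 : (2 : ℝ) ^ n.primeFactors.card ≤ n := by exact_mod_cast h1
  have h3 := Real.log_le_log (by positivity) h2
  rw [Real.log_pow] at h3
  have h4 : (1 / 2 : ℝ) ≤ Real.log 2 := by have := Real.log_two_gt_d9; linarith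
  have h5 : (0 : ℝ) ≤ n.primeFactors.card := Nat.cast_nonneg _
  nlinarith

/-- the theorem for all signs -/
theorem all_signs : ∃ K : ℕ, 1 ≤ K ∧ ∀ (C0 : ℝ) (A : ℕ), 0 ≤ C0 → ∃ X₀ : ℕ, 3 ≤ X₀ ∧ ∀ y : ℕ, X₀ ≤ y →
    ∀ a b c d : ℤ, Admissible a b c d → a * c < 0 →
    ((Int.gcd a c : ℕ) : ℝ) ^ 2 ≤ Real.log ((y ^ 2 : ℕ) : ℝ) ^ A →
    2 * Real.log (((size a b c) ^ 2 : ℤ) : ℝ) ≤ C0 * Real.log ((y ^ 2 : ℕ) : ℝ) →
    Many y (|d| + 4 * size a b c * (y : ℤ) ^ (2 * K)) a b c d := by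
  obtain ⟨K, hK, hc⟩ := core2
  refine ⟨K, hK, fun C0 A hC0 => ?_⟩
  obtain ⟨X₀, hX₀, hc⟩ := hc C0 A hC0
  refine ⟨X₀, hX₀, fun y hy a b c d hadm hac hg hp => ?_⟩
  have key : ∀ a b c m : ℤ, 0 < a → c < 0 → Even (a + b + c - d) →
      (∀ p : ℕ, p.Prime → ¬ ((p : ℤ) ∣ a ∧ (p : ℤ) ∣ b ∧ (p : ℤ) ∣ c)) →
      (∀ p : ℕ, p.Prime → ¬ ((p : ℤ) ∣ d ∧ (p : ℤ) ∣ a ∧ (p : ℤ) ∣ b)) →
      (∀ p : ℕ, p.Prime → ¬ ((p : ℤ) ∣ d ∧ (p : ℤ) ∣ a ∧ (p : ℤ) ∣ c)) →
      (∀ p : ℕ, p.Prime → ¬ ((p : ℤ) ∣ d ∧ (p : ℤ) ∣ b ∧ (p : ℤ) ∣ c)) →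
      |a| ≤ m → |b| ≤ m → |c| ≤ m → ((Int.gcd a c : ℕ) : ℝ) ^ 2 ≤ Real.log ((y ^ 2 : ℕ) : ℝ) ^ A →
      2 * Real.log ((m ^ 2 : ℤ) : ℝ) ≤ C0 * Real.log ((y ^ 2 : ℕ) : ℝ) →
      Many y (|d| + 4 * m * (y : ℤ) ^ (2 * K)) a b c d := by
    intro a b c m ha hc' he h1 h2 h3 h4 ham hbm hcm hg hp
    have ea : ((a.toNat : ℕ) : ℤ) = a := Int.toNat_of_nonneg ha.le
    have ec : (((-c).toNat : ℕ) : ℤ) = -c := Int.toNat_of_nonneg (by omega)
    have hda : ∀ p : ℕ, p ∣ a.toNat → (p : ℤ) ∣ a := fun p hp => by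
      rw [← ea]
      exact_mod_cast hp
    have hdc : ∀ p : ℕ, p ∣ (-c).toNat → (p : ℤ) ∣ c := fun p hp => by
      have : (p : ℤ) ∣ -c := by
        rw [← ec]
        exact_mod_cast hp
      exact (dvd_neg).1 this
    have hgcd : Nat.gcd a.toNat (-c).toNat = Int.gcd a c := by
      have h5 : Int.gcd ((a.toNat : ℕ) : ℤ) (((-c).toNat : ℕ) : ℤ) = Nat.gcd a.toNat (-c).toNat := Int.gcd_natCast_natCast _ _
      rw [← h5, ea, ec, Int.gcd_neg]
    have hma : (a.toNat : ℤ) ≤ m := by rw [ea]; exact (le_abs_self a).trans ham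
    have hmc : (((-c).toNat : ℕ) : ℤ) ≤ m := by rw [ec]; exact (neg_le_abs c).trans hcm
    have hpos : 0 < a.toNat * (-c).toNat := Nat.mul_pos (by omega) (by omega)
    obtain ⟨F, hF, h⟩ := hc y hy a.toNat (-c).toNat b d (by omega) (by omega)
      (fun p hp h => h1 p hp ⟨hda p h.1, h.2.2, hdc p h.2.1⟩)
      (fun p hp h => h3 p hp ⟨h.2.2, hda p h.1, hdc p h.2.1⟩)
      (fun p hp h => h2 p hp ⟨h.2.2, hda p h.1, h.2.1⟩)
      (fun p hp h => h4 p hp ⟨h.2.2, h.2.1, hdc p h.1⟩)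
      (by
        rw [ea, ec]
        obtain ⟨w, hw⟩ := he
        exact ⟨w - c + d, by omega⟩)
      m hma hmc hbm (by
        rw [hgcd]
        push_cast
        push_cast at hg
        exact hg) (by
        refine (omega_le _ hpos).trans (le_trans ?_ hp)
        have h5 : ((a.toNat * (-c).toNat : ℕ) : ℝ) ≤ ((m ^ 2 : ℤ) : ℝ) := by
          have h6 : ((a.toNat * (-c).toNat : ℕ) : ℤ) ≤ m ^ 2 := by
            push_cast only [Nat.cast_mul]
            rw [pow_two]
            exact mul_le_mul hma hmc (Int.natCast_nonneg _) (by omega)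
          exact_mod_cast h6
        have h6 := Real.log_le_log (by exact_mod_cast hpos) h5
        linarith)
    refine ⟨F, hF, fun t ht => ?_⟩
    obtain ⟨k1, k2, k3, k4, k5, k6, k7, k8, k9⟩ := h t ht
    rw [ea, ec] at k1
    exact ⟨by linear_combination k1, ⟨fun p hp => (k2 p hp).1, k5, k7⟩, ⟨k3, k4, k8⟩, ⟨fun p hp => (k2 p hp).2, k6, k9⟩⟩
  obtain ⟨⟨ha, hb, hc0⟩, hs1, hs2, he, g1, g2, g3, g4⟩ := hadm
  have G1 := gcd_of g1
  have G2 := gcd_of g2
  have G3 := gcd_of g3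
  have G4 := gcd_of g4
  have ma : |a| ≤ size a b c := (le_max_left _ _).trans (le_max_right _ _)
  have mb : |b| ≤ size a b c := ((le_max_left _ _).trans (le_max_right _ _)).trans (le_max_right _ _)
  have mc : |c| ≤ size a b c := ((le_max_right _ _).trans (le_max_right _ _)).trans (le_max_right _ _)
  rcases lt_or_gt_of_ne ha with ha' | ha'
  · have hc' : 0 < c := pos_of_mul_neg_right hac ha'.le
    apply swap3
    exact key c b a _ hc' ha' (by obtain ⟨w, hw⟩ := he; exact ⟨w, by omega⟩)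
        (fun p hp h => G1 p hp ⟨h.2.2, h.2.1, h.1⟩) (fun p hp h => G4 p hp ⟨h.1, h.2.2, h.2.1⟩)
        (fun p hp h => G3 p hp ⟨h.1, h.2.2, h.2.1⟩) (fun p hp h => G2 p hp ⟨h.1, h.2.2, h.2.1⟩) mc mb ma
        (by rw [Int.gcd_comm]; exact hg) hp
  · have hc' : c < 0 := neg_of_mul_neg_right hac ha'.le
    exact key a b c _ ha' hc' he G1 G2 G3 G4 ma mb mc hg hp

lemma pow_length_le (w : ℝ) (hw : 1 ≤ w) (n : ℕ) (hn : n ≠ 0) (h : ∀ p : ℕ, p.Prime → p ∣ n → w < p) :
    w ^ n.primeFactorsList.length ≤ n := by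
  have h1 : ∀ l : List ℕ, (∀ p ∈ l, w ≤ (p : ℝ)) → w ^ l.length ≤ ((l.prod : ℕ) : ℝ) := by
    intro l
    induction l with
    | nil => simp
    | cons q l ih =>
      intro hl
      rw [List.length_cons, List.prod_cons, pow_succ, Nat.cast_mul]
      have h2 := hl q (List.mem_cons_self)
      have h3 := ih fun p hp => hl p (List.mem_cons_of_mem _ hp)
      rw [mul_comm]
      gcongr
  have h2 := h1 n.primeFactorsList fun p hp =>
    (h p (Nat.prime_of_mem_primeFactorsList hp) (Nat.dvd_of_mem_primeFactorsList hp)).le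
  rwa [Nat.prod_primeFactorsList hn] at h2

/-- the logarithms of the bounds -/
lemma factors_le (w B : ℝ) (r n : ℕ) (hw : 1 < w) (hn : n ≠ 0) (h : ∀ p : ℕ, p.Prime → p ∣ n → w < p)
    (hB : (n : ℝ) ≤ B) (hr : B < w ^ (r + 1)) : n.primeFactorsList.length ≤ r := by
  by_contra hcon
  push Not at hcon
  have h1 := pow_length_le w hw.le n hn h
  have h2 : w ^ (r + 1) ≤ w ^ n.primeFactorsList.length := pow_le_pow_right₀ hw.le hcon
  linarith

/-- **One prime and two almost primes.** -/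
theorem result (ε : ℝ) (hε : 0 < ε) : ∃ (δ : ℝ) (r : ℕ), 0 < δ ∧ ∀ A : ℕ, ∃ X₀ : ℕ, ∀ a b c d : ℤ,
      Admissible a b c d → a * c < 0 → ∀ X : ℝ, X = max (size a b c : ℝ) |(d : ℝ)| → (X₀ : ℝ) ≤ X →
      (Int.gcd a c : ℝ) ≤ Real.log X ^ A →
      ∃ F : Finset (ℕ × ℕ × ℕ), X ^ δ ≤ F.card ∧
        ∀ t ∈ F, Solution r (X ^ δ) ((1 + ε) * |(d : ℝ)| + (size a b c : ℝ) ^ (1 + ε)) a b c d t := by
  obtain ⟨K, hK, hall⟩ := all_signs
  have hK' : (1 : ℝ) ≤ K := by exact_mod_cast hK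
  have hsize : ∀ a b c : ℤ, (3 : ℝ) ≤ (size a b c : ℝ) := fun a b c => by
    have : (3 : ℤ) ≤ size a b c := le_max_left _ _
    exact_mod_cast this
  set η : ℝ := min (ε / 4) (1 / 4) with hη
  have hη0 : 0 < η := by rw [hη]; exact lt_min (by linarith) (by norm_num)
  have hη1 : η ≤ ε / 4 := min_le_left _ _
  have hη2 : η ≤ 1 / 4 := min_le_right _ _
  set δ : ℝ := η / (2 * K) with hδ
  have hδ0 : 0 < δ := by rw [hδ]; positivity
  set r : ℕ := ⌈(3 + ε) / δ⌉₊ with hr
  refine ⟨δ, r, hδ0, fun A => ?_⟩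
  obtain ⟨Y₀, hY₀, hall⟩ := hall (4 / δ) (2 * A + 1) (by positivity)
  have t0 : ∀ᶠ X : ℝ in atTop, (Y₀ : ℝ) + 3 ≤ X ^ δ := (tendsto_rpow_atTop hδ0).eventually_ge_atTop _
  have t1 : ∀ᶠ X : ℝ in atTop, 8 ^ (2 : ℝ) ≤ X ^ (ε / 2) := (tendsto_rpow_atTop (half_pos hε)).eventually_ge_atTop _
  have t2 : ∀ᶠ X : ℝ in atTop, 8 / ε ≤ X ^ (1 / 4 : ℝ) := (tendsto_rpow_atTop (by norm_num)).eventually_ge_atTop _
  have t3 : ∀ᶠ X : ℝ in atTop, 3 + ε ≤ X := eventually_ge_atTop _
  have t4 : ∀ᶠ X : ℝ in atTop, (2 : ℝ) ≤ X ^ (δ / 2) := (tendsto_rpow_atTop (half_pos hδ0)).eventually_ge_atTop _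
  have t5 : ∀ᶠ X : ℝ in atTop, (1 / δ) ^ (2 * A + 1) ≤ Real.log X := Real.tendsto_log_atTop.eventually_ge_atTop _
  obtain ⟨X₁, hX₁⟩ := eventually_atTop.mp (t0.and (t1.and (t2.and (t3.and (t4.and t5)))))
  refine ⟨⌈X₁⌉₊, fun a b c d hadm hac X hX hXX hgcd => ?_⟩
  · obtain ⟨u0, u1, u2, u3, u4, u5⟩ := hX₁ X ((Nat.le_ceil _).trans hXX)
    obtain ⟨m, hm⟩ : ∃ m : ℝ, m = (size a b c : ℝ) := ⟨_, rfl⟩
    have hm3 : 3 ≤ m := by rw [hm]; exact hsize a b c
    obtain ⟨D, hD⟩ : ∃ D : ℝ, D = |(d : ℝ)| := ⟨_, rfl⟩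
    have hD0 : 0 ≤ D := by rw [hD]; exact abs_nonneg _
    rw [← hm, ← hD] at hX ⊢
    have hX3 : 3 ≤ X := by rw [hX]; exact hm3.trans (le_max_left _ _)
    have hmX : m ≤ X := by rw [hX]; exact le_max_left _ _
    have hDX : D ≤ X := by rw [hX]; exact le_max_right _ _
    have hX0 : 0 < X := by linarith
    obtain ⟨y, hy⟩ : ∃ y : ℕ, y = ⌊X ^ δ⌋₊ := ⟨_, rfl⟩
    have hy1 : (y : ℝ) ≤ X ^ δ := by rw [hy]; exact Nat.floor_le (by positivity)
    have hy2 : X ^ δ < y + 1 := by rw [hy]; exact Nat.lt_floor_add_one _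
    have hyY : Y₀ ≤ y := by
      have : (Y₀ : ℝ) < y + 1 := by linarith
      have h1 : Y₀ < y + 1 := by exact_mod_cast this
      omega
    have hyr : (3 : ℝ) ≤ y := by exact_mod_cast hY₀.trans hyY
    have hlX : 0 < Real.log X := Real.log_pos (by linarith)
    -- the logarithm of the level
    have hlog : δ * Real.log X ≤ Real.log ((y ^ 2 : ℕ) : ℝ) := by
      have h1 : X ^ (δ / 2) ≤ y := by
        have h2 : X ^ δ = X ^ (δ / 2) * X ^ (δ / 2) := by
          rw [← Real.rpow_add hX0]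
          congr 1
          ring
        nlinarith
      have h2 := Real.log_le_log (by positivity) h1
      rw [Real.log_rpow hX0] at h2
      push_cast
      rw [Real.log_pow]
      push_cast
      linarith
    have hly : 0 < Real.log ((y ^ 2 : ℕ) : ℝ) := lt_of_lt_of_le (by positivity) hlog
    obtain ⟨F, hF, hsol⟩ := hall y hyY a b c d hadm hac (by
      have h1 : ((Int.gcd a c : ℕ) : ℝ) ^ 2 ≤ (Real.log X ^ A) ^ 2 := by gcongr
      refine h1.trans ?_
      have h2 : Real.log X ≤ 1 / δ * Real.log ((y ^ 2 : ℕ) : ℝ) := by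
        rw [div_mul_eq_mul_div, one_mul, le_div_iff₀ hδ0]
        linarith
      have h3 : (1 / δ) ^ (2 * A) ≤ Real.log ((y ^ 2 : ℕ) : ℝ) := by
        have h4 : (1 / δ) ^ (2 * A) = δ * (1 / δ) ^ (2 * A + 1) := by
          rw [pow_succ]
          field_simp
        rw [h4]
        refine le_trans ?_ hlog
        gcongr
      calc (Real.log X ^ A) ^ 2 = Real.log X ^ (2 * A) := by rw [← pow_mul, mul_comm A 2]
        _ ≤ (1 / δ * Real.log ((y ^ 2 : ℕ) : ℝ)) ^ (2 * A) := by gcongr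
        _ = (1 / δ) ^ (2 * A) * Real.log ((y ^ 2 : ℕ) : ℝ) ^ (2 * A) := mul_pow _ _ _
        _ ≤ Real.log ((y ^ 2 : ℕ) : ℝ) * Real.log ((y ^ 2 : ℕ) : ℝ) ^ (2 * A) := by gcongr
        _ = Real.log ((y ^ 2 : ℕ) : ℝ) ^ (2 * A + 1) := by ring) (by
      have h1 : ((size a b c ^ 2 : ℤ) : ℝ) = m ^ 2 := by rw [hm]; push_cast; ring
      rw [h1, Real.log_pow]
      have h2 : Real.log m ≤ Real.log X := Real.log_le_log (by linarith) hmX
      rw [div_mul_eq_mul_div, le_div_iff₀ hδ0]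
      have h3 := mul_le_mul_of_nonneg_left h2 hδ0.le
      have h4 : 2 * (((2 : ℕ) : ℝ) * Real.log m) * δ = 4 * (δ * Real.log m) := by push_cast; ring
      rw [h4]
      linarith)
    have hpow : (y : ℝ) ^ (2 * K) ≤ X ^ η := by
      calc (y : ℝ) ^ (2 * K) ≤ (X ^ δ) ^ (2 * K) := by gcongr
        _ = X ^ (δ * ((2 * K : ℕ) : ℝ)) := by rw [← Real.rpow_natCast, ← Real.rpow_mul hX0.le]
        _ = X ^ η := by
            congr 1
            rw [hδ]
            push_cast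
            field_simp
    have hbd : D + 4 * m * X ^ η ≤ (1 + ε) * D + m ^ (1 + ε) := by
      rcases le_or_gt D (m ^ (2 : ℝ)) with h1 | h1
      · have hXm : X ≤ m ^ (2 : ℝ) := by
          rw [hX]
          apply max_le _ h1
          rw [Real.rpow_two]
          nlinarith
        have h2 : X ^ η ≤ m ^ (ε / 2) := by
          calc X ^ η ≤ (m ^ (2 : ℝ)) ^ η := Real.rpow_le_rpow hX0.le hXm hη0.le
            _ = m ^ (2 * η) := by rw [← Real.rpow_mul (by linarith)]
            _ ≤ m ^ (ε / 2) := Real.rpow_le_rpow_of_exponent_le (by linarith) (by linarith)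
        have h3 : 4 ≤ m ^ (ε / 2) := by
          have h4 : (8 : ℝ) ^ (2 : ℝ) ≤ (m ^ (ε / 2)) ^ (2 : ℝ) := by
            calc (8 : ℝ) ^ (2 : ℝ) ≤ X ^ (ε / 2) := u1
              _ ≤ (m ^ (2 : ℝ)) ^ (ε / 2) := Real.rpow_le_rpow hX0.le hXm (by linarith)
              _ = (m ^ (ε / 2)) ^ (2 : ℝ) := by
                  rw [← Real.rpow_mul (by linarith), ← Real.rpow_mul (by linarith), mul_comm]
          have h5 := (Real.rpow_le_rpow_iff (by norm_num) (by positivity) (by norm_num)).1 h4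
          linarith
        have h4 : 4 * m * X ^ η ≤ m ^ (1 + ε) := by
          calc 4 * m * X ^ η ≤ m ^ (ε / 2) * m * m ^ (ε / 2) := by gcongr
            _ = m ^ (1 + ε) := by
                have e1 : (m ^ (ε / 2)) * m * m ^ (ε / 2) = m ^ (ε / 2) * m ^ (1 : ℝ) * m ^ (ε / 2) := by
                  rw [Real.rpow_one]
                rw [e1, ← Real.rpow_add (by linarith), ← Real.rpow_add (by linarith)]
                congr 1
                ring
        nlinarith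
      · have hXD : X = D := by
          rw [hX]
          apply max_eq_right
          refine le_trans ?_ h1.le
          rw [Real.rpow_two]
          nlinarith
        have hmD : m ≤ X ^ (1 / 2 : ℝ) := by
          have h4 : (m ^ (2 : ℝ)) ^ (1 / 2 : ℝ) ≤ X ^ (1 / 2 : ℝ) :=
            Real.rpow_le_rpow (by positivity) (by rw [hXD]; exact h1.le) (by norm_num)
          rw [← Real.rpow_mul (by linarith)] at h4
          norm_num at h4
          exact h4
        have h2 : 4 * m * X ^ η ≤ ε * D := by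
          have h3 : X ^ η ≤ X ^ (1 / 4 : ℝ) := Real.rpow_le_rpow_of_exponent_le (by linarith) hη2
          have h4 : X = X ^ (1 / 2 : ℝ) * X ^ (1 / 4 : ℝ) * X ^ (1 / 4 : ℝ) := by
            rw [← Real.rpow_add hX0, ← Real.rpow_add hX0]
            norm_num
          have h5 : 4 ≤ ε * X ^ (1 / 4 : ℝ) := by
            rw [div_le_iff₀ hε] at u2
            linarith
          calc 4 * m * X ^ η ≤ (ε * X ^ (1 / 4 : ℝ)) * X ^ (1 / 2 : ℝ) * X ^ (1 / 4 : ℝ) := by gcongr
            _ = ε * (X ^ (1 / 2 : ℝ) * X ^ (1 / 4 : ℝ) * X ^ (1 / 4 : ℝ)) := by ring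
            _ = ε * D := by rw [← h4, hXD]
        have h3 : 0 ≤ m ^ (1 + ε) := by positivity
        linarith
    have hB : (1 + ε) * D + m ^ (1 + ε) < (X ^ δ) ^ (r + 1) := by
      have h1 : m ^ (1 + ε) ≤ X ^ (1 + ε) := Real.rpow_le_rpow (by linarith) hmX (by linarith)
      have h2 : (1 + ε) * D ≤ (1 + ε) * X ^ (1 + ε) := by
        have : X ≤ X ^ (1 + ε) := by
          calc X = X ^ (1 : ℝ) := (Real.rpow_one X).symm
            _ ≤ X ^ (1 + ε) := Real.rpow_le_rpow_of_exponent_le (by linarith) (by linarith)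
        gcongr
        linarith
      have h3 : (1 + ε) * D + m ^ (1 + ε) < X ^ (3 + ε) := by
        calc (1 + ε) * D + m ^ (1 + ε) ≤ (2 + ε) * X ^ (1 + ε) := by linarith
          _ < X * X ^ (1 + ε) := by
              apply mul_lt_mul_of_pos_right _ (by positivity)
              linarith
          _ ≤ X ^ (2 : ℝ) * X ^ (1 + ε) := by
              gcongr
              calc X = X ^ (1 : ℝ) := (Real.rpow_one X).symm
                _ ≤ X ^ (2 : ℝ) := Real.rpow_le_rpow_of_exponent_le (by linarith) (by norm_num)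
          _ = X ^ (3 + ε) := by
              rw [← Real.rpow_add hX0]
              congr 1
              ring
      refine h3.trans_le ?_
      rw [← Real.rpow_natCast, ← Real.rpow_mul hX0.le]
      apply Real.rpow_le_rpow_of_exponent_le (by linarith)
      have h4 : (3 + ε) / δ ≤ r := Nat.le_ceil _
      rw [div_le_iff₀ hδ0] at h4
      push_cast
      nlinarith
    have hbound : ∀ n : ℕ, (n : ℤ) ≤ |d| + 4 * size a b c * (y : ℤ) ^ (2 * K) → (n : ℝ) ≤ (1 + ε) * D + m ^ (1 + ε) := by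
      intro n n3
      have h2 : (n : ℝ) ≤ |(d : ℝ)| + 4 * (size a b c : ℝ) * (y : ℝ) ^ (2 * K) := by exact_mod_cast n3
      rw [← hm, ← hD] at h2
      refine h2.trans (le_trans ?_ hbd)
      gcongr
    refine ⟨F, ?_, fun t ht => ?_⟩
    · have : ((2 * y : ℕ) : ℝ) ≤ F.card := by exact_mod_cast hF
      push_cast at this
      linarith
    · obtain ⟨k1, k2, k3, k4⟩ := hsol t ht
      have hA : ∀ n : ℕ, Pr y (|d| + 4 * size a b c * (y : ℤ) ^ (2 * K)) n →
          Almost r (X ^ δ) ((1 + ε) * D + m ^ (1 + ε)) n := by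
        intro n hn
        obtain ⟨n1, n2, n3⟩ := hn
        have h1 := hbound n n3
        have h2 : ∀ p : ℕ, p.Prime → p ∣ n → X ^ δ < p := by
          intro p hp hpn
          by_contra hcon
          push Not at hcon
          refine n1 p (mem_pz.2 ⟨?_, hp⟩) hpn
          have : (p : ℝ) < y + 1 := by linarith
          have h3 : p < y + 1 := by exact_mod_cast this
          omega
        exact ⟨by omega, factors_le (X ^ δ) _ r n (by linarith) (by omega) h2 h1 hB, h2, h1⟩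
      have hy4 : X ^ δ < t.2.1 := by
        have h1 : y + 1 ≤ t.2.1 := k3.2.1
        have h2 : ((y + 1 : ℕ) : ℝ) ≤ t.2.1 := by exact_mod_cast h1
        push_cast at h2
        linarith
      exact ⟨k1, hA _ k2, ⟨k3.1, hy4, hbound _ k3.2.2⟩, hA _ k4⟩

end Pool.Agent.Results.MP_3923f3_nt.PrimeAndAlmostPrimes
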