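import Mathlib

/-!
# Baker's constant: the conjectured value `1` is not attained

The definition of Baker's constant quantifies over *every* admissible quadruple `(a,b,c,d)`.
The quadruple `(1,-3,-2,0)`, i.e. the equation `p = 3 q + 2 r` in primes, has `m = 3` and its
smallest prime solution is `(13,3,2)`; hence every good exponent `μ` satisfies `13 ≤ 3 ^ μ`,
and Baker's constant is at least `log 13 / log 3 = 2.33...`.
-/

namespace Pool.Agent.Results.MP_3923f3_nt.SmallCoefficients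

/-- Admissible quadruples. -/
def Admissible (a b c d : ℤ) : Prop :=
  (a ≠ 0 ∧ b ≠ 0 ∧ c ≠ 0) ∧ ¬ (0 < a ∧ 0 < b ∧ 0 < c) ∧ ¬ (a < 0 ∧ b < 0 ∧ c < 0) ∧
  Even (a + b + c - d) ∧
  Int.gcd a (Int.gcd b c) = 1 ∧ Int.gcd d (Int.gcd a b) = 1 ∧
  Int.gcd d (Int.gcd a c) = 1 ∧ Int.gcd d (Int.gcd b c) = 1

/-- `m(a,b,c) = max(3,|a|,|b|,|c|)`. -/
def m (a b c : ℤ) : ℕ := max 3 (max a.natAbs (max b.natAbs c.natAbs))

/-- `μ` is good: every admissible equation has a prime solution with
`max(p,q,r) ≤ 3 |d| + m ^ μ`. -/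
def Good (μ : ℝ) : Prop :=
  ∀ a b c d : ℤ, Admissible a b c d →
    ∃ p q r : ℕ, p.Prime ∧ q.Prime ∧ r.Prime ∧ a * p + b * q + c * r = d ∧
      ((max p (max q r) : ℕ) : ℝ) ≤ 3 * |(d : ℝ)| + (m a b c : ℝ) ^ μ

/-- Baker's constant, the infimum of the good exponents (in the extended reals). -/
noncomputable def bakerConstant : EReal := ⨅ μ ∈ {μ : ℝ | Good μ}, (μ : EReal)

theorem admissible_example : Admissible 1 (-3) (-2) 0 := by
  refine ⟨by norm_num, by norm_num, by norm_num, ?_, by decide, by decide, by decide, by decide⟩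
  exact ⟨-2, by norm_num⟩

theorem thirteen_le (p q r : ℕ) (hp : p.Prime) (hq : q.Prime) (hr : r.Prime)
    (h : (1 : ℤ) * p + (-3) * q + (-2) * r = 0) : 13 ≤ p := by
  have hq2 := hq.two_le
  have hr2 := hr.two_le
  have h' : p = 3 * q + 2 * r := by omega
  rcases Nat.lt_or_ge q 3 with hlt | hge
  · have hq' : q = 2 := by omega
    subst hq'
    rcases hp.eq_two_or_odd with h2 | h2
    · omega
    · omega
  · omega

theorem good_lower (μ : ℝ) (h : Good μ) : Real.log 13 / Real.log 3 ≤ μ := by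
  obtain ⟨p, q, r, hp, hq, hr, he, hb⟩ := h 1 (-3) (-2) 0 admissible_example
  have h13 : 13 ≤ p := thirteen_le p q r hp hq hr (by exact_mod_cast he)
  have hm : m 1 (-3) (-2) = 3 := by decide
  rw [hm] at hb
  have h1 : (13 : ℝ) ≤ (3 : ℝ) ^ μ := by
    have h2 : (13 : ℝ) ≤ ((max p (max q r) : ℕ) : ℝ) := by
      exact_mod_cast le_trans h13 (le_max_left _ _)
    have h3 : 3 * |((0 : ℤ) : ℝ)| + ((3 : ℕ) : ℝ) ^ μ = (3 : ℝ) ^ μ := by simp
    linarith [h3 ▸ hb]
  have hlog3 : 0 < Real.log 3 := Real.log_pos (by norm_num)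
  rw [div_le_iff₀ hlog3]
  have := Real.log_le_log (by norm_num) h1
  rwa [Real.log_rpow (by norm_num)] at this

theorem seven_thirds : (7 / 3 : ℝ) < Real.log 13 / Real.log 3 := by
  have hlog3 : 0 < Real.log 3 := Real.log_pos (by norm_num)
  rw [lt_div_iff₀ hlog3]
  have h1 : Real.log ((3 : ℝ) ^ 7) < Real.log ((13 : ℝ) ^ 3) :=
    Real.log_lt_log (by norm_num) (by norm_num)
  rw [Real.log_pow, Real.log_pow] at h1
  push_cast at h1
  linarith

/-- Every good exponent is at least `log 13 / log 3 > 7/3`; hence Baker's constant is at least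
`log 13 / log 3` and is different from `1`. -/
theorem result :
    (∀ μ : ℝ, Good μ → Real.log 13 / Real.log 3 ≤ μ) ∧
    ((Real.log 13 / Real.log 3 : ℝ) : EReal) ≤ bakerConstant ∧
    (7 / 3 : ℝ) < Real.log 13 / Real.log 3 ∧
    bakerConstant ≠ 1 ∧ sInf {μ : ℝ | Good μ} ≠ 1 := by
  have key : ((Real.log 13 / Real.log 3 : ℝ) : EReal) ≤ bakerConstant := by
    refine le_iInf₂ fun μ hμ => ?_
    exact_mod_cast good_lower μ hμ
  refine ⟨good_lower, key, seven_thirds, ?_, ?_⟩
  · intro h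
    rw [h] at key
    have h1 : Real.log 13 / Real.log 3 ≤ 1 := by exact_mod_cast key
    linarith [seven_thirds]
  · intro h
    rcases Set.eq_empty_or_nonempty {μ : ℝ | Good μ} with he | hne
    · rw [he, Real.sInf_empty] at h
      norm_num at h
    · have h1 : Real.log 13 / Real.log 3 ≤ sInf {μ : ℝ | Good μ} :=
        le_csInf hne fun μ hμ => good_lower μ hμ
      rw [h] at h1
      linarith [seven_thirds]

end Pool.Agent.Results.MP_3923f3_nt.SmallCoefficients
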